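import Pool.Agent.H86.VR.FamVal

namespace Pool.Agent.Results.MP_175a65_gt.RightHorns

open Finset Filter Topology Pool.Agent.Results.MP_6e410e_gt.Willerton
open Pool.Agent.H86.VR.Graph Pool.Agent.H86.VR.V2 Pool.Agent.H86.VR.Link
open Pool.Agent.H86.VR.FamVal
open scoped Classical

/-- The point of the plane that belongs to a diagram: both invariants are divided by the powers of
the number of crossings. -/
noncomputable def point (v2 v3 : KnotDiagram → ℝ) (D : KnotDiagram) : ℝ × ℝ :=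
  (v2 D / (Nat.card D.C : ℝ) ^ 2, v3 D / (Nat.card D.C : ℝ) ^ 3)

/-- The set `S` of all these points. -/
def pointSet (v2 v3 : KnotDiagram → ℝ) : Set (ℝ × ℝ) :=
  {z | ∃ D : KnotDiagram, 1 ≤ Nat.card D.C ∧ z = point v2 v3 D}

/-- The limits of points of diagrams whose number of crossings tends to infinity. -/
def limitSet (v2 v3 : KnotDiagram → ℝ) : Set (ℝ × ℝ) :=
  {z | ∀ ε : ℝ, 0 < ε → ∀ N : ℕ, ∃ D : KnotDiagram, N ≤ Nat.card D.C ∧ dist (point v2 v3 D) z < ε}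

/-! ### The closure -/

theorem inv8_abs (D : KnotDiagram) : |inv8 D| ≤ 2 * (Nat.card D.C : ℤ) ^ 2 := by
  rcases isEmpty_or_nonempty D.C with he | ⟨⟨c0⟩⟩
  · rw [inv8_empty D he]; simp
  · rw [inv8_eq D (c0, true)]
    unfold inv8x
    have h1 : ∀ a b : D.C, |dd D.next a b ^ 2 * (sg (D.sign a) * sg (D.sign b) -
        epx D.next (c0, true) a * epx D.next (c0, true) b)| ≤ 2 := by
      intro a b
      have e1 : ∀ c : D.C, epx D.next (c0, true) c = 1 ∨ epx D.next (c0, true) c = -1 := by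
        intro c; unfold epx; split_ifs <;> simp
      rcases dd_cases (next := D.next) a b with h | h | h <;> rw [h] <;>
      rcases e1 a with x | x <;> rcases e1 b with y | y <;> rw [x, y] <;>
      cases D.sign a <;> cases D.sign b <;> simp [sg]
    refine (Finset.abs_sum_le_sum_abs _ _).trans ((Finset.sum_le_sum fun a _ =>
      (Finset.abs_sum_le_sum_abs _ _).trans (Finset.sum_le_sum fun b _ => h1 a b)).trans ?_)
    simp only [Finset.sum_const, Finset.card_univ, nsmul_eq_mul, ← Nat.card_eq_fintype_card]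
    apply le_of_eq; ring

theorem inv48_abs (D : KnotDiagram) : |inv48 D| ≤ 2 * (Nat.card D.C : ℤ) ^ 3 := by
  rcases isEmpty_or_nonempty D.C with he | hne
  · unfold inv48 Pool.Agent.Results.MP_6e410e_gt.Willerton.val
    simp
  · have h := (inv48_bound D).1
    rw [← Nat.card_eq_fintype_card] at h
    refine h.trans ?_
    have : (0 : ℤ) ≤ Nat.card D.C := Int.natCast_nonneg _
    nlinarith

/-- there are only finitely many points with a bounded number of crossings -/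
theorem finite_points (N : ℕ) :
    {z : ℝ × ℝ | ∃ D : KnotDiagram, (1 ≤ Nat.card D.C ∧ Nat.card D.C < N) ∧
      z = point v2 v3 D}.Finite := by
  let T : Set (ℕ × ℤ × ℤ) := (Set.Icc 0 N) ×ˢ ((Set.Icc (-(2 * (N : ℤ) ^ 2)) (2 * (N : ℤ) ^ 2)) ×ˢ
    (Set.Icc (-(2 * (N : ℤ) ^ 3)) (2 * (N : ℤ) ^ 3)))
  have hT : T.Finite := (Set.finite_Icc _ _).prod ((Set.finite_Icc _ _).prod (Set.finite_Icc _ _))
  refine (hT.image (fun t => (((t.2.1 : ℝ) / 8) / (t.1 : ℝ) ^ 2,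
    ((t.2.2 : ℝ) / 48) / (t.1 : ℝ) ^ 3))).subset ?_
  rintro z ⟨D, ⟨h1, h2⟩, rfl⟩
  refine ⟨(Nat.card D.C, inv8 D, inv48 D), ?_, rfl⟩
  have hc : (Nat.card D.C : ℤ) ≤ N := by exact_mod_cast h2.le
  have hc0 : (0 : ℤ) ≤ Nat.card D.C := Int.natCast_nonneg _
  have a1 := abs_le.1 ((inv8_abs D).trans (mul_le_mul_of_nonneg_left
    (pow_le_pow_left₀ hc0 hc 2) (by norm_num)))
  have a2 := abs_le.1 ((inv48_abs D).trans (mul_le_mul_of_nonneg_left
    (pow_le_pow_left₀ hc0 hc 3) (by norm_num)))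
  exact ⟨⟨Nat.zero_le _, h2.le⟩, ⟨a1.1, a1.2⟩, ⟨a2.1, a2.2⟩⟩

theorem closure_eq : closure (pointSet v2 v3) = pointSet v2 v3 ∪ limitSet v2 v3 := by
  apply Set.Subset.antisymm
  · intro z hz
    by_contra hcon
    rw [Set.mem_union, not_or] at hcon
    obtain ⟨hS, hL⟩ := hcon
    have hL' : ∃ ε : ℝ, 0 < ε ∧ ∃ N : ℕ, ∀ D : KnotDiagram, N ≤ Nat.card D.C →
        ε ≤ dist (point v2 v3 D) z := by
      by_contra hcon
      push Not at hcon
      exact hL fun ε hε N => hcon ε hε N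
    obtain ⟨ε, hε, N, hN⟩ := hL'
    have hfin := finite_points N
    have hsub : pointSet v2 v3 ⊆ {z : ℝ × ℝ | ∃ D : KnotDiagram,
        (1 ≤ Nat.card D.C ∧ Nat.card D.C < N) ∧ z = point v2 v3 D} ∪ {w | ε ≤ dist w z} := by
      rintro w ⟨D, h1, rfl⟩
      rcases Nat.lt_or_ge (Nat.card D.C) N with h | h
      · exact Or.inl ⟨D, ⟨h1, h⟩, rfl⟩
      · exact Or.inr (hN D h)
    have hcl : IsClosed ({z : ℝ × ℝ | ∃ D : KnotDiagram,
        (1 ≤ Nat.card D.C ∧ Nat.card D.C < N) ∧ z = point v2 v3 D} ∪ {w | ε ≤ dist w z}) :=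
      hfin.isClosed.union (isClosed_le continuous_const (continuous_id.dist continuous_const))
    rcases closure_minimal hsub hcl hz with h | h
    · obtain ⟨D, ⟨h1, -⟩, h2⟩ := h
      exact hS ⟨D, h1, h2⟩
    · have : ε ≤ dist z z := h
      rw [dist_self] at this
      linarith
  · rintro z (hz | hz)
    · exact subset_closure hz
    · rw [Metric.mem_closure_iff]
      intro ε hε
      obtain ⟨D, h1, h2⟩ := hz ε hε 1
      exact ⟨point v2 v3 D, ⟨D, h1, rfl⟩, by rwa [dist_comm]⟩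

/-! ### The limits lie in the region -/

/-- the continuous upper bound -/
noncomputable def Uf (X : ℝ) : ℝ :=
  3 * max X (1 / 2) - 1 + √(1 - max X (1 / 2)) ^ 3 + 6 * max (1 / 2 - X) 0

/-- the continuous lower bound -/
noncomputable def Lf (X : ℝ) : ℝ := √(2 * X - 1) * (1 + X)

def KS : Set (ℝ × ℝ) := {z | z.1 ≤ 1 ∧ Lf z.1 ≤ |z.2| ∧ |z.2| ≤ Uf z.1}

theorem KS_closed : IsClosed KS := by
  have hU : Continuous Uf := by unfold Uf; fun_prop
  have hL : Continuous Lf := by unfold Lf; fun_prop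
  refine IsClosed.inter (isClosed_le continuous_fst continuous_const) (IsClosed.inter
    (isClosed_le (hL.comp continuous_fst) (continuous_abs.comp continuous_snd))
    (isClosed_le (continuous_abs.comp continuous_snd) (hU.comp continuous_fst)))

theorem mem_KS (D : KnotDiagram) (hn : 1 ≤ Nat.card D.C) :
    (((s1 (ee D)) ^ 2 - s2 (JJ D) (ee D) (ee D)) / (Nat.card D.C : ℝ) ^ 2,
      (2 * (s1 (ee D)) ^ 3 - 3 * s1 (ee D) * s2 (JJ D) (ee D) (ee D) +
        s3 (JJ D) (ee D) (ee D) (ee D)) / (Nat.card D.C : ℝ) ^ 3) ∈ KS := by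
  have hmain := graph_main (JJ_symm D) (JJ_zo D) (ee D) (ee_pm D)
  have hlow := graph_low (JJ_zo D) (JJ_symm D) (ee D) (ee_pm D)
  have hq1 : (s1 (ee D)) ^ 2 - s2 (JJ D) (ee D) (ee D) ≤ (Nat.card D.C : ℝ) ^ 2 := by
    rw [s1_sq]
    unfold s2
    rw [← Finset.sum_sub_distrib]
    have : ∀ a : D.C, (∑ b, ee D a * ee D b) - ∑ b, ee D a * ee D b * JJ D a b ≤
        (Nat.card D.C : ℝ) := by
      intro a
      rw [← Finset.sum_sub_distrib]
      have h1 : ∀ b ∈ (univ : Finset D.C), ee D a * ee D b - ee D a * ee D b * JJ D a b ≤ 1 := by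
        intro b _
        obtain ⟨j0, j1⟩ := JJ_zo D a b
        rcases ee_pm D a with x | x <;> rcases ee_pm D b with y | y <;> rw [x, y] <;> linarith
      refine (Finset.sum_le_sum h1).trans ?_
      rw [Finset.sum_const, Finset.card_univ, nsmul_eq_mul, mul_one, Nat.card_eq_fintype_card]
    refine (Finset.sum_le_sum fun a _ => this a).trans ?_
    rw [Finset.sum_const, Finset.card_univ, nsmul_eq_mul, Nat.card_eq_fintype_card, pow_two]
  rw [← Nat.card_eq_fintype_card] at hmain hlow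
  obtain ⟨n, hnd⟩ : ∃ n : ℝ, n = (Nat.card D.C : ℝ) := ⟨_, rfl⟩
  have hn0 : 0 < n := by
    rw [hnd]
    have : (1 : ℝ) ≤ Nat.card D.C := by exact_mod_cast hn
    linarith
  rw [← hnd] at hmain hlow hq1 ⊢
  set q := (s1 (ee D)) ^ 2 - s2 (JJ D) (ee D) (ee D)
  set f := 2 * (s1 (ee D)) ^ 3 - 3 * s1 (ee D) * s2 (JJ D) (ee D) (ee D) +
        s3 (JJ D) (ee D) (ee D) (ee D)
  have habs : |f / n ^ 3| = |f| / n ^ 3 := by
    rw [abs_div, abs_of_pos (by positivity : (0 : ℝ) < n ^ 3)]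
  have hXq : n ^ 2 * (q / n ^ 2) = q := by field_simp
  refine ⟨by rw [div_le_one (by positivity)]; exact hq1, ?_, ?_⟩
  · change √(2 * (q / n ^ 2) - 1) * (1 + q / n ^ 2) ≤ |f / n ^ 3|
    rw [habs, le_div_iff₀ (by positivity)]
    by_cases hX : 1 / 2 ≤ q / n ^ 2
    · have h2 : n ^ 2 ≤ 2 * q := by
        rw [le_div_iff₀ (by positivity)] at hX; linarith
      refine le_trans (le_of_eq ?_) (hmain h2).1
      have e1 : √(2 * q - n ^ 2) = n * √(2 * (q / n ^ 2) - 1) := by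
        rw [show 2 * q - n ^ 2 = n ^ 2 * (2 * (q / n ^ 2) - 1) by field_simp,
          Real.sqrt_mul (sq_nonneg n), Real.sqrt_sq hn0.le]
      rw [e1]
      field_simp
    · push Not at hX
      rw [Real.sqrt_eq_zero_of_nonpos (by linarith)]
      simp
  · change |f / n ^ 3| ≤ Uf (q / n ^ 2)
    rw [habs, div_le_iff₀ (by positivity)]
    unfold Uf
    by_cases hX : 1 / 2 ≤ q / n ^ 2
    · have h2 : n ^ 2 ≤ 2 * q := by
        rw [le_div_iff₀ (by positivity)] at hX; linarith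
      rw [max_eq_left hX, max_eq_right (by linarith)]
      refine (hmain h2).2.trans (le_of_eq ?_)
      have e1 : √(n ^ 2 - q) = n * √(1 - q / n ^ 2) := by
        rw [show n ^ 2 - q = n ^ 2 * (1 - q / n ^ 2) by field_simp,
          Real.sqrt_mul (sq_nonneg n), Real.sqrt_sq hn0.le]
      rw [e1]
      field_simp
      ring
    · push Not at hX
      have h2 : 2 * q < n ^ 2 := by
        rw [div_lt_iff₀ (by positivity)] at hX; linarith
      rw [max_eq_right hX.le, max_eq_left (by linarith)]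
      refine (hlow h2).trans (le_of_eq ?_)
      have e3 : (1 : ℝ) - 1 / 2 = 1 / 2 := by norm_num
      rw [e3]
      field_simp
      ring

theorem err_small (D : KnotDiagram) (hn : 1 ≤ Nat.card D.C) :
    |8 * (v2 D / (Nat.card D.C : ℝ) ^ 2) - ((s1 (ee D)) ^ 2 - s2 (JJ D) (ee D) (ee D)) /
      (Nat.card D.C : ℝ) ^ 2| ≤ 18 / √(Nat.card D.C : ℝ) ∧
    |48 * (v3 D / (Nat.card D.C : ℝ) ^ 3) - (2 * (s1 (ee D)) ^ 3 -
      3 * s1 (ee D) * s2 (JJ D) (ee D) (ee D) + s3 (JJ D) (ee D) (ee D) (ee D)) /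
      (Nat.card D.C : ℝ) ^ 3| ≤ 18 / √(Nat.card D.C : ℝ) := by
  have h2 := v2_near D
  have h3 := v3_near D
  obtain ⟨n, hnd⟩ : ∃ n : ℝ, n = (Nat.card D.C : ℝ) := ⟨_, rfl⟩
  have hn0 : 0 < n := by
    rw [hnd]
    have : (1 : ℝ) ≤ Nat.card D.C := by exact_mod_cast hn
    linarith
  rw [← hnd] at h2 h3 ⊢
  have hs0 : 0 < √n := Real.sqrt_pos.2 hn0
  have hss : √n * √n = n := Real.mul_self_sqrt hn0.le
  constructor
  · have e : 8 * (v2 D / n ^ 2) - ((s1 (ee D)) ^ 2 - s2 (JJ D) (ee D) (ee D)) / n ^ 2 =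
        (8 * v2 D - ((s1 (ee D)) ^ 2 - s2 (JJ D) (ee D) (ee D))) / n ^ 2 := by ring
    rw [e, abs_div, abs_of_pos (by positivity : (0 : ℝ) < n ^ 2), div_le_div_iff₀ (by positivity) hs0]
    calc _ ≤ 2 * (n * √n) * √n := mul_le_mul_of_nonneg_right h2 hs0.le
      _ = 2 * n ^ 2 := by rw [show 2 * (n * √n) * √n = 2 * n * (√n * √n) by ring, hss]; ring
      _ ≤ 18 * n ^ 2 := by nlinarith [sq_nonneg n]
  · have e : 48 * (v3 D / n ^ 3) - (2 * (s1 (ee D)) ^ 3 - 3 * s1 (ee D) * s2 (JJ D) (ee D) (ee D) +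
        s3 (JJ D) (ee D) (ee D) (ee D)) / n ^ 3 =
        (48 * v3 D - (2 * (s1 (ee D)) ^ 3 - 3 * s1 (ee D) * s2 (JJ D) (ee D) (ee D) +
          s3 (JJ D) (ee D) (ee D) (ee D))) / n ^ 3 := by ring
    rw [e, abs_div, abs_of_pos (by positivity : (0 : ℝ) < n ^ 3), div_le_div_iff₀ (by positivity) hs0]
    calc _ ≤ 18 * (n ^ 2 * √n) * √n := mul_le_mul_of_nonneg_right h3 hs0.le
      _ = 18 * n ^ 3 := by rw [show 18 * (n ^ 2 * √n) * √n = 18 * n ^ 2 * (√n * √n) by ring, hss]; ring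

theorem limit_KS {x y : ℝ} (h : (x, y) ∈ limitSet v2 v3) : (8 * x, 48 * y) ∈ KS := by
  rw [← KS_closed.closure_eq, Metric.mem_closure_iff]
  intro ε hε
  obtain ⟨N, hN⟩ := exists_nat_gt ((36 / ε) ^ 2)
  obtain ⟨D, hD, hdist⟩ := h (ε / 96) (by positivity) (N + 1)
  have hcard : 1 ≤ Nat.card D.C := by omega
  refine ⟨_, mem_KS D hcard, ?_⟩
  obtain ⟨e1, e2⟩ := err_small D hcard
  have hn1 : ((36 / ε) ^ 2 : ℝ) < Nat.card D.C := by
    have : (N : ℝ) + 1 ≤ Nat.card D.C := by exact_mod_cast hD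
    linarith
  have hs : 36 / ε < √(Nat.card D.C : ℝ) := Real.lt_sqrt_of_sq_lt hn1
  have hs0 : 0 < √(Nat.card D.C : ℝ) := lt_trans (by positivity) hs
  have hb : 18 / √(Nat.card D.C : ℝ) < ε / 2 := by
    rw [div_lt_iff₀ (by positivity)] at hs
    rw [div_lt_iff₀ hs0]
    linarith
  rw [Prod.dist_eq, max_lt_iff] at hdist
  obtain ⟨d1, d2⟩ := hdist
  rw [Real.dist_eq] at d1 d2
  change |v2 D / (Nat.card D.C : ℝ) ^ 2 - x| < ε / 96 at d1
  change |v3 D / (Nat.card D.C : ℝ) ^ 3 - y| < ε / 96 at d2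
  rw [Prod.dist_eq, max_lt_iff, Real.dist_eq, Real.dist_eq]
  simp only
  rw [abs_lt] at d1 d2 ⊢
  rw [abs_le] at e1 e2
  constructor
  · constructor <;> linarith [d1.1, d1.2, e1.1, e1.2]
  · rw [abs_lt]
    constructor <;> linarith [d2.1, d2.2, e2.1, e2.2]

theorem limit_upper {x y : ℝ} (hx : 1 / 16 ≤ x) (h : (x, y) ∈ limitSet v2 v3) :
    x ≤ 1 / 8 ∧ √(16 * x - 1) * (1 + 8 * x) / 48 ≤ |y| ∧
      |y| ≤ (24 * x - 1 + √(1 - 8 * x) ^ 3) / 48 := by
  obtain ⟨h1, h2, h3⟩ := limit_KS h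
  simp only at h1 h2 h3
  unfold Lf at h2
  unfold Uf at h3
  rw [abs_mul, abs_of_pos (by norm_num : (0 : ℝ) < 48)] at h2 h3
  rw [max_eq_left (by linarith : (1 : ℝ) / 2 ≤ 8 * x),
    max_eq_right (by linarith : 1 / 2 - 8 * x ≤ 0)] at h3
  refine ⟨by linarith, ?_, ?_⟩
  · rw [show 16 * x - 1 = 2 * (8 * x) - 1 by ring, div_le_iff₀ (by norm_num)]
    linarith
  · rw [le_div_iff₀ (by norm_num)]
    linarith

/-! ### The family -/

section family

variable {α β γ : ℝ}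

noncomputable def ak (α : ℝ) (k : ℕ) : ℕ := 2 * ⌊α * k⌋₊ + 2
noncomputable def bk (β : ℝ) (k : ℕ) : ℕ := 2 * ⌊β * k⌋₊ + 1

theorem tend_floor (h : 0 ≤ α) : Tendsto (fun k : ℕ => (⌊α * k⌋₊ : ℝ) / k) atTop (𝓝 α) :=
  (tendsto_nat_floor_mul_div_atTop h).comp tendsto_natCast_atTop_atTop

theorem tend_ak (h : 0 ≤ α) : Tendsto (fun k : ℕ => (ak α k : ℝ) / (2 * k)) atTop (𝓝 α) := by
  have h1 := (tend_floor h).add (tendsto_one_div_atTop_nhds_zero_nat (𝕜 := ℝ))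
  rw [add_zero] at h1
  refine h1.congr' ?_
  filter_upwards [eventually_gt_atTop 0] with k hk
  have hk' : (0 : ℝ) < k := by exact_mod_cast hk
  unfold ak
  push_cast
  field_simp

theorem tend_bk (h : 0 ≤ β) : Tendsto (fun k : ℕ => (bk β k : ℝ) / (2 * k)) atTop (𝓝 β) := by
  have h1 := (tend_floor h).add ((tendsto_one_div_atTop_nhds_zero_nat (𝕜 := ℝ)).const_mul (1 / 2))
  rw [mul_zero, add_zero] at h1
  refine h1.congr' ?_
  filter_upwards [eventually_gt_atTop 0] with k hk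
  have hk' : (0 : ℝ) < k := by exact_mod_cast hk
  unfold bk
  push_cast
  field_simp

theorem sum_ge (hs : α + β + γ = 1) (k : ℕ) : k ≤ ak α k + bk β k + bk γ k := by
  have h1 := Nat.lt_floor_add_one (α * k)
  have h2 := Nat.lt_floor_add_one (β * k)
  have h3 := Nat.lt_floor_add_one (γ * k)
  have h4 : (k : ℝ) = α * k + β * k + γ * k := by rw [← add_mul, ← add_mul, hs, one_mul]
  have h5 : (k : ℝ) < (⌊α * k⌋₊ + ⌊β * k⌋₊ + ⌊γ * k⌋₊ + 3 : ℕ) := by push_cast; linarith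
  have h6 : k < ⌊α * k⌋₊ + ⌊β * k⌋₊ + ⌊γ * k⌋₊ + 3 := by exact_mod_cast h5
  unfold ak bk
  omega

/-- the diagrams of the family -/
noncomputable def dk (α β γ : ℝ) (k : ℕ) : KnotDiagram :=
  fdiag (a := ak α k) (b := bk β k) (c := bk γ k) (by unfold ak; omega) (by unfold ak; omega)
    (by unfold bk; omega) (by unfold bk; omega)

theorem dk_card (k : ℕ) : Nat.card (dk α β γ k).C = ak α k + bk β k + bk γ k := fdiag_card _ _ _ _

theorem family_limit (hα : 0 ≤ α) (hβ : 0 ≤ β) (hγ : 0 ≤ γ) (hs : α + β + γ = 1) :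
    (((α + β) ^ 2 - β ^ 2 + γ ^ 2) / 8,
      (2 * (α + β) ^ 3 - 3 * (α + β) * β ^ 2 + β ^ 3 - 2 * γ ^ 3) / 48) ∈ limitSet v2 v3 := by
  have tA := tend_ak hα
  have tB := tend_bk hβ
  have tC := tend_bk hγ
  have tN := (tA.add tB).add tC
  rw [hs] at tN
  -- the number of crossings
  have hcardtop : Tendsto (fun k : ℕ => ((Nat.card (dk α β γ k).C : ℕ) : ℝ)) atTop atTop := by
    refine tendsto_atTop_mono (fun k => ?_) tendsto_natCast_atTop_atTop
    rw [dk_card]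
    exact_mod_cast sum_ge hs k
  have hpos : ∀ k : ℕ, (0 : ℝ) < ((Nat.card (dk α β γ k).C : ℕ) : ℝ) := by
    intro k
    rw [dk_card]
    have : 0 < ak α k + bk β k + bk γ k := by unfold ak; omega
    exact_mod_cast this
  have hsqtop : Tendsto (fun k : ℕ => √((Nat.card (dk α β γ k).C : ℕ) : ℝ)) atTop atTop :=
    Real.tendsto_sqrt_atTop.comp hcardtop
  have herr : Tendsto (fun k : ℕ => 30 / √((Nat.card (dk α β γ k).C : ℕ) : ℝ)) atTop (𝓝 0) :=
    hsqtop.const_div_atTop 30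
  -- the main terms
  have tq : Tendsto (fun k : ℕ => (((ak α k : ℝ) + bk β k) ^ 2 - (bk β k : ℝ) ^ 2 +
      (bk γ k : ℝ) ^ 2) / ((Nat.card (dk α β γ k).C : ℕ) : ℝ) ^ 2) atTop
      (𝓝 ((α + β) ^ 2 - β ^ 2 + γ ^ 2)) := by
    have h1 := ((((tA.add tB).pow 2).sub (tB.pow 2)).add (tC.pow 2)).div (tN.pow 2) (by norm_num)
    rw [one_pow, div_one] at h1
    refine h1.congr' ?_
    filter_upwards [eventually_gt_atTop 0] with k hk
    have hk' : (0 : ℝ) < k := by exact_mod_cast hk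
    have hn := hpos k
    rw [dk_card] at hn ⊢
    push_cast at hn ⊢
    simp only [Pi.div_apply]
    field_simp
  have tf : Tendsto (fun k : ℕ => (2 * ((ak α k : ℝ) + bk β k) ^ 3 -
      3 * ((ak α k : ℝ) + bk β k) * (bk β k : ℝ) ^ 2 + (bk β k : ℝ) ^ 3 -
      2 * (bk γ k : ℝ) ^ 3) / ((Nat.card (dk α β γ k).C : ℕ) : ℝ) ^ 3) atTop
      (𝓝 (2 * (α + β) ^ 3 - 3 * (α + β) * β ^ 2 + β ^ 3 - 2 * γ ^ 3)) := by
    have h1 := (((((tA.add tB).pow 3).const_mul 2).sub (((tA.add tB).const_mul 3).mul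
      (tB.pow 2))).add (tB.pow 3)).sub ((tC.pow 3).const_mul 2)
    have h2 := h1.div (tN.pow 3) (by norm_num)
    rw [one_pow, div_one] at h2
    refine h2.congr' ?_
    filter_upwards [eventually_gt_atTop 0] with k hk
    have hk' : (0 : ℝ) < k := by exact_mod_cast hk
    have hn := hpos k
    rw [dk_card] at hn ⊢
    push_cast at hn ⊢
    simp only [Pi.div_apply]
    field_simp
  -- the errors
  have e2 : Tendsto (fun k : ℕ => 8 * (v2 (dk α β γ k) / ((Nat.card (dk α β γ k).C : ℕ) : ℝ) ^ 2) -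
      (((ak α k : ℝ) + bk β k) ^ 2 - (bk β k : ℝ) ^ 2 +
      (bk γ k : ℝ) ^ 2) / ((Nat.card (dk α β γ k).C : ℕ) : ℝ) ^ 2) atTop (𝓝 0) := by
    refine squeeze_zero_norm (fun k => ?_) herr
    have h1 := fdiag_v2 (a := ak α k) (b := bk β k) (c := bk γ k) (by unfold ak; omega)
      (by unfold ak; omega) (by unfold bk; omega) (by unfold bk; omega)
    rw [← dk_card (α := α) (β := β) (γ := γ) k] at h1
    change |8 * v2 (dk α β γ k) - _| ≤ _ at h1
    have hn := hpos k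
    set n : ℝ := ((Nat.card (dk α β γ k).C : ℕ) : ℝ)
    have hs0 : 0 < √n := Real.sqrt_pos.2 hn
    have hss : √n * √n = n := Real.mul_self_sqrt hn.le
    have e : 8 * (v2 (dk α β γ k) / n ^ 2) - (((ak α k : ℝ) + bk β k) ^ 2 - (bk β k : ℝ) ^ 2 +
      (bk γ k : ℝ) ^ 2) / n ^ 2 = (8 * v2 (dk α β γ k) - (((ak α k : ℝ) + bk β k) ^ 2 -
      (bk β k : ℝ) ^ 2 + (bk γ k : ℝ) ^ 2)) / n ^ 2 := by ring
    rw [Real.norm_eq_abs, e, abs_div, abs_of_pos (by positivity : (0 : ℝ) < n ^ 2),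
      div_le_div_iff₀ (by positivity) hs0]
    calc _ ≤ 4 * (n * √n) * √n := mul_le_mul_of_nonneg_right h1 hs0.le
      _ = 4 * n ^ 2 := by rw [show 4 * (n * √n) * √n = 4 * n * (√n * √n) by ring, hss]; ring
      _ ≤ 30 * n ^ 2 := by nlinarith [sq_nonneg n]
  have e3 : Tendsto (fun k : ℕ => 48 * (v3 (dk α β γ k) / ((Nat.card (dk α β γ k).C : ℕ) : ℝ) ^ 3) -
      (2 * ((ak α k : ℝ) + bk β k) ^ 3 -
      3 * ((ak α k : ℝ) + bk β k) * (bk β k : ℝ) ^ 2 + (bk β k : ℝ) ^ 3 -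
      2 * (bk γ k : ℝ) ^ 3) / ((Nat.card (dk α β γ k).C : ℕ) : ℝ) ^ 3) atTop (𝓝 0) := by
    refine squeeze_zero_norm (fun k => ?_) herr
    have h1 := fdiag_v3 (a := ak α k) (b := bk β k) (c := bk γ k) (by unfold ak; omega)
      (by unfold ak; omega) (by unfold bk; omega) (by unfold bk; omega)
    rw [← dk_card (α := α) (β := β) (γ := γ) k] at h1
    change |48 * v3 (dk α β γ k) - _| ≤ _ at h1
    have hn := hpos k
    set n : ℝ := ((Nat.card (dk α β γ k).C : ℕ) : ℝ)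
    have hs0 : 0 < √n := Real.sqrt_pos.2 hn
    have hss : √n * √n = n := Real.mul_self_sqrt hn.le
    have e : 48 * (v3 (dk α β γ k) / n ^ 3) - (2 * ((ak α k : ℝ) + bk β k) ^ 3 -
      3 * ((ak α k : ℝ) + bk β k) * (bk β k : ℝ) ^ 2 + (bk β k : ℝ) ^ 3 -
      2 * (bk γ k : ℝ) ^ 3) / n ^ 3 = (48 * v3 (dk α β γ k) - (2 * ((ak α k : ℝ) + bk β k) ^ 3 -
      3 * ((ak α k : ℝ) + bk β k) * (bk β k : ℝ) ^ 2 + (bk β k : ℝ) ^ 3 -
      2 * (bk γ k : ℝ) ^ 3)) / n ^ 3 := by ring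
    rw [Real.norm_eq_abs, e, abs_div, abs_of_pos (by positivity : (0 : ℝ) < n ^ 3),
      div_le_div_iff₀ (by positivity) hs0]
    calc _ ≤ 30 * (n ^ 2 * √n) * √n := mul_le_mul_of_nonneg_right h1 hs0.le
      _ = 30 * n ^ 3 := by rw [show 30 * (n ^ 2 * √n) * √n = 30 * n ^ 2 * (√n * √n) by ring, hss]; ring
  have f2 := ((e2.add tq).mul_const (1 / 8))
  have f3 := ((e3.add tf).mul_const (1 / 48))
  rw [zero_add] at f2 f3
  have g2 : Tendsto (fun k : ℕ => v2 (dk α β γ k) / ((Nat.card (dk α β γ k).C : ℕ) : ℝ) ^ 2) atTop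
      (𝓝 (((α + β) ^ 2 - β ^ 2 + γ ^ 2) / 8)) := by
    rw [div_eq_mul_one_div ((α + β) ^ 2 - β ^ 2 + γ ^ 2)]
    refine f2.congr (fun k => ?_)
    ring
  have g3 : Tendsto (fun k : ℕ => v3 (dk α β γ k) / ((Nat.card (dk α β γ k).C : ℕ) : ℝ) ^ 3) atTop
      (𝓝 ((2 * (α + β) ^ 3 - 3 * (α + β) * β ^ 2 + β ^ 3 - 2 * γ ^ 3) / 48)) := by
    rw [div_eq_mul_one_div (2 * (α + β) ^ 3 - 3 * (α + β) * β ^ 2 + β ^ 3 - 2 * γ ^ 3)]
    refine f3.congr (fun k => ?_)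
    ring
  have gp : Tendsto (fun k : ℕ => point v2 v3 (dk α β γ k)) atTop
      (𝓝 (((α + β) ^ 2 - β ^ 2 + γ ^ 2) / 8,
      (2 * (α + β) ^ 3 - 3 * (α + β) * β ^ 2 + β ^ 3 - 2 * γ ^ 3) / 48)) := g2.prodMk_nhds g3
  intro ε hε N
  have h1 := (Metric.tendsto_nhds.1 gp ε hε).and (eventually_ge_atTop N)
  obtain ⟨k, hk1, hk2⟩ := h1.exists
  refine ⟨dk α β γ k, ?_, hk1⟩
  rw [dk_card]
  exact hk2.trans (sum_ge hs k)

end family

/-! ### The region is covered -/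

theorem limit_mirror {x y : ℝ} (h : (x, y) ∈ limitSet v2 v3) : (x, -y) ∈ limitSet v2 v3 := by
  intro ε hε N
  obtain ⟨D, hD, hdist⟩ := h ε hε N
  refine ⟨D.mirror, hD, ?_⟩
  rw [Prod.dist_eq, max_lt_iff, Real.dist_eq, Real.dist_eq] at hdist ⊢
  obtain ⟨d1, d2⟩ := hdist
  change |v2 D / (Nat.card D.C : ℝ) ^ 2 - x| < ε at d1
  change |v3 D / (Nat.card D.C : ℝ) ^ 3 - y| < ε at d2
  constructor
  · change |v2 D.mirror / (Nat.card D.C : ℝ) ^ 2 - x| < ε
    rw [v2_mirror]; exact d1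
  · change |v3 D.mirror / (Nat.card D.C : ℝ) ^ 3 - -y| < ε
    rw [v3_mirror, ← abs_neg]
    refine lt_of_eq_of_lt ?_ d2
    congr 1
    ring

/-- the third coordinate of the family for a given second one -/
noncomputable def phi (x g : ℝ) : ℝ :=
  2 * (1 - g) ^ 3 - 3 * (1 - g) * (√((1 - g) ^ 2 + g ^ 2 - 8 * x)) ^ 2 +
    (√((1 - g) ^ 2 + g ^ 2 - 8 * x)) ^ 3 - 2 * g ^ 3

theorem phi_cont (x : ℝ) : Continuous (phi x) := by unfold phi; fun_prop

theorem phi_mem {x g : ℝ} (hg : 0 ≤ g) (hg1 : g ≤ 1) (h1 : 0 ≤ (1 - g) ^ 2 + g ^ 2 - 8 * x)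
    (h2 : g ^ 2 ≤ 8 * x) : (x, phi x g / 48) ∈ limitSet v2 v3 := by
  have hb0 := Real.sqrt_nonneg ((1 - g) ^ 2 + g ^ 2 - 8 * x)
  have hb2 := Real.sq_sqrt h1
  have hb1 : √((1 - g) ^ 2 + g ^ 2 - 8 * x) ≤ 1 - g := by
    apply Real.sqrt_le_iff.2
    constructor <;> linarith
  have := family_limit (α := 1 - g - √((1 - g) ^ 2 + g ^ 2 - 8 * x))
    (β := √((1 - g) ^ 2 + g ^ 2 - 8 * x)) (γ := g) (by linarith) hb0 hg (by ring)
  rw [show 1 - g - √((1 - g) ^ 2 + g ^ 2 - 8 * x) + √((1 - g) ^ 2 + g ^ 2 - 8 * x) = 1 - g by ring]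
    at this
  have e : ((1 - g) ^ 2 - √((1 - g) ^ 2 + g ^ 2 - 8 * x) ^ 2 + g ^ 2) / 8 = x := by
    rw [hb2]; ring
  rw [e] at this
  exact this

theorem phi_zero (x : ℝ) (hx : x ≤ 1 / 8) : phi x 0 = 24 * x - 1 + √(1 - 8 * x) ^ 3 := by
  unfold phi
  have e : (1 - (0 : ℝ)) ^ 2 + 0 ^ 2 - 8 * x = 1 - 8 * x := by ring
  rw [e, Real.sq_sqrt (by linarith)]
  ring

/-- all points of the right part of the region -/
theorem covers_right {x y : ℝ} (hx : 1 / 16 ≤ x) (hx1 : x ≤ 1 / 8) (hy : 0 ≤ y)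
    (h1 : √(16 * x - 1) * (1 + 8 * x) / 48 ≤ y)
    (h2 : y ≤ (24 * x - 1 + √(1 - 8 * x) ^ 3) / 48) : (x, y) ∈ limitSet v2 v3 := by
  obtain ⟨s, hs⟩ : ∃ s, s = √(16 * x - 1) := ⟨_, rfl⟩
  have hs0 : 0 ≤ s := by rw [hs]; exact Real.sqrt_nonneg _
  have hs2 : s ^ 2 = 16 * x - 1 := by rw [hs]; exact Real.sq_sqrt (by linarith)
  have hs1 : s ≤ 1 := by nlinarith
  rw [← hs] at h1
  obtain ⟨g1, hg1⟩ : ∃ g1, g1 = (1 - s) / 2 := ⟨_, rfl⟩
  have hg0 : 0 ≤ g1 := by rw [hg1]; linarith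
  have hend : (1 - g1) ^ 2 + g1 ^ 2 - 8 * x = 0 := by rw [hg1]; linear_combination hs2 / 2
  have hphi1 : phi x g1 = s * (1 + 8 * x) := by
    unfold phi
    rw [hend, Real.sqrt_zero, hg1]
    linear_combination (s / 2) * hs2
  have hivt := intermediate_value_Icc' hg0 ((phi_cont x).continuousOn (s := Set.Icc 0 g1))
  have hmem : 48 * y ∈ Set.Icc (phi x g1) (phi x 0) := by
    rw [phi_zero x hx1, hphi1]
    constructor
    · rw [div_le_iff₀ (by norm_num)] at h1; linarith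
    · rw [le_div_iff₀ (by norm_num)] at h2; linarith
  obtain ⟨g, ⟨ha, hb⟩, hg⟩ := hivt hmem
  have hg12 : g1 ≤ 1 / 2 := by rw [hg1]; linarith
  have := phi_mem (x := x) ha (by linarith) (by nlinarith) (by nlinarith)
  rw [hg] at this
  rwa [show 48 * y / 48 = y by ring] at this

/-- the points for small `x` -/
theorem covers_left {x y : ℝ} (hx : 0 ≤ x) (hx1 : x ≤ 1 / 16) (hy : 0 ≤ y)
    (h2 : y ≤ (24 * x - 1 + √(1 - 8 * x) ^ 3) / 48) : (x, y) ∈ limitSet v2 v3 := by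
  obtain ⟨g1, hg1⟩ : ∃ g1, g1 = √(8 * x) := ⟨_, rfl⟩
  have hg0 : 0 ≤ g1 := by rw [hg1]; exact Real.sqrt_nonneg _
  have hg2 : g1 ^ 2 = 8 * x := by rw [hg1]; exact Real.sq_sqrt (by linarith)
  have hg11 : g1 ≤ 1 := by nlinarith
  have hphi1 : phi x g1 = -2 * g1 ^ 3 := by
    unfold phi
    have e : (1 - g1) ^ 2 + g1 ^ 2 - 8 * x = (1 - g1) ^ 2 := by rw [hg2]; ring
    rw [e, Real.sqrt_sq (by linarith)]
    ring
  have hivt := intermediate_value_Icc' hg0 ((phi_cont x).continuousOn (s := Set.Icc 0 g1))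
  have hmem : 48 * y ∈ Set.Icc (phi x g1) (phi x 0) := by
    rw [phi_zero x (by linarith), hphi1]
    constructor
    · have : 0 ≤ g1 ^ 3 := by positivity
      linarith
    · rw [le_div_iff₀ (by norm_num)] at h2; linarith
  obtain ⟨g, ⟨ha, hb⟩, hg⟩ := hivt hmem
  have hgg : g ^ 2 ≤ g1 ^ 2 := pow_le_pow_left₀ ha hb 2
  have := phi_mem (x := x) ha (by linarith) (by nlinarith [sq_nonneg (2 * g - 1)])
    (by rw [← hg2]; exact hgg)
  rw [hg] at this
  rwa [show 48 * y / 48 = y by ring] at this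

theorem covers_abs {x y : ℝ} (h : (x, |y|) ∈ limitSet v2 v3) : (x, y) ∈ limitSet v2 v3 := by
  rcases abs_cases y with ⟨e, -⟩ | ⟨e, -⟩
  · rwa [e] at h
  · rw [e] at h
    have := limit_mirror h
    rwa [neg_neg] at this

theorem point_trefoil : point v2 v3 rightTrefoil = (1 / 9, 1 / 27) := by
  have hc : Nat.card rightTrefoil.C = 3 := by
    change Nat.card (Fin 3) = 3
    simp
  unfold point
  rw [hc, v2_trefoil, v3_trefoil]
  norm_num

/-- **The limits of the normalised invariants of degree two and three.** There are invariants `v2`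
and `v3` of oriented knot diagrams under the Reidemeister moves, of degree at most two and three,
with the usual normalisation, such that the limit points of `(v2 / n ^ 2, v3 / n ^ 3)` with
`x ≥ 1 / 16` are exactly the points with
`√(16 x - 1) (1 + 8 x) / 48 ≤ |y| ≤ (24 x - 1 + (1 - 8 x) ^ (3 / 2)) / 48` and `x ≤ 1 / 8`. -/
theorem result : ∃ v2 v3 : KnotDiagram → ℝ,
    (∀ D D' : KnotDiagram, Move D D' → v2 D = v2 D' ∧ v3 D = v3 D') ∧
    (∀ (D : KnotDiagram) (A : Finset D.C), A.card = 3 → singularValue v2 D A = 0) ∧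
    (∀ (D : KnotDiagram) (A : Finset D.C), A.card = 4 → singularValue v3 D A = 0) ∧
    (∀ D : KnotDiagram, v2 D.mirror = v2 D ∧ v3 D.mirror = - v3 D) ∧
    (∀ D : KnotDiagram, IsEmpty D.C → v2 D = 0 ∧ v3 D = 0) ∧
    v2 rightTrefoil = 1 ∧ v3 rightTrefoil = 1 ∧
    closure (pointSet v2 v3) = pointSet v2 v3 ∪ limitSet v2 v3 ∧
    (∀ x y : ℝ, 1 / 16 ≤ x → ((x, y) ∈ limitSet v2 v3 ↔
      x ≤ 1 / 8 ∧ √(16 * x - 1) * (1 + 8 * x) / 48 ≤ |y| ∧
        |y| ≤ (24 * x - 1 + √(1 - 8 * x) ^ 3) / 48)) ∧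
    (∀ x y : ℝ, 0 ≤ x → x ≤ 1 / 16 → |y| ≤ (24 * x - 1 + √(1 - 8 * x) ^ 3) / 48 →
      (x, y) ∈ limitSet v2 v3) ∧
    ((1 / 9, 1 / 27) ∈ pointSet v2 v3 ∧ (1 / 9, 1 / 27) ∉ limitSet v2 v3) := by
  refine ⟨v2, v3, ?_, v2_degree, v3_degree, fun D => ⟨v2_mirror D, v3_mirror D⟩, ?_, v2_trefoil,
    v3_trefoil, closure_eq, ?_, ?_, ?_, ?_⟩
  · intro D D' h
    refine ⟨v2_move D D' h, ?_⟩
    unfold v3
    rw [inv48_move D D' h]
  · intro D he
    refine ⟨v2_empty D he, ?_⟩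
    unfold v3 inv48 Pool.Agent.Results.MP_6e410e_gt.Willerton.val
    simp
  · intro x y hx
    constructor
    · exact limit_upper hx
    · rintro ⟨h1, h2, h3⟩
      exact covers_abs (covers_right hx h1 (abs_nonneg y) h2 h3)
  · intro x y hx hx1 hy
    exact covers_abs (covers_left hx hx1 (abs_nonneg y) hy)
  · refine ⟨rightTrefoil, ?_, point_trefoil.symm⟩
    change 1 ≤ Nat.card (Fin 3)
    simp
  · intro h
    have h1 := (limit_upper (by norm_num) h).2.2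
    have h2 : √(1 - 8 * (1 / 9 : ℝ)) = 1 / 3 := by
      rw [show (1 : ℝ) - 8 * (1 / 9) = (1 / 3) ^ 2 by norm_num, Real.sqrt_sq (by norm_num)]
    rw [h2, abs_of_pos (by norm_num)] at h1
    norm_num at h1

end Pool.Agent.Results.MP_175a65_gt.RightHorns
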